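import Mathlib

set_option autoImplicit false

namespace Pool.Agent.Results.MP_9bc296_ag.NotPrime

open Matrix Finset Equiv

/-- The ideal generated by the permanents of all `t × t` submatrices of `A`. -/
def P {R : Type} [CommRing R] {m n : ℕ} (t : ℕ) (A : Matrix (Fin m) (Fin n) R) : Ideal R :=
  Ideal.span {x | ∃ (r : Fin t → Fin m) (c : Fin t → Fin n),
    StrictMono r ∧ StrictMono c ∧ x = (A.submatrix r c).permanent}

section
variable {R : Type} [CommRing R] {ι : Type} [Fintype ι] [DecidableEq ι]

theorem perm_col (A : Matrix ι ι R) (j : ι) (v : ι → R) : (A.updateCol j v).permanent =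
    ∑ σ : Perm ι, v (σ j) * ∏ k ∈ univ.erase j, A (σ k) k := by
  refine sum_congr rfl fun σ _ => ?_
  rw [← mul_prod_erase _ _ (mem_univ j), updateCol_self]
  exact congrArg _ (prod_congr rfl fun k hk => updateCol_ne (ne_of_mem_erase hk))

theorem perm_lin (A : Matrix ι ι R) (j : ι) (v : ι → R) : (A.updateCol j v).permanent =
    ∑ i, (A.updateCol j (Pi.single i 1)).permanent * v i := by
  simp only [perm_col, sum_mul]
  rw [sum_comm]
  refine sum_congr rfl fun σ _ => ?_
  rw [sum_eq_single (σ j) (fun i _ h => by simp [h.symm]) (by simp)]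
  simp [mul_comm]

theorem perm_row_zero (A : Matrix ι ι R) (i : ι) (h : ∀ k, A i k = 0) : A.permanent = 0 :=
  sum_eq_zero fun σ _ => prod_eq_zero (mem_univ (σ.symm i)) (by simp [h])

theorem perm_map {S : Type} [CommRing S] (f : R →+* S) (A : Matrix ι ι R) :
    f A.permanent = (A.map f).permanent := by
  simp [permanent]

/-- Arrow matrices. -/
def arrow (o : ι) (u w : ι → R) : Matrix ι ι R :=
  of fun i k => if k = o then u i else if i = o then w k else if i = k then 1 else 0

theorem perm_arrow (o : ι) (u w : ι → R) (hw : w o = 1) :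
    (arrow o u w).permanent = ∑ a, w a * u a := by
  have : arrow o u w = (arrow o 0 w).updateCol o u := by
    ext i k
    by_cases h : k = o <;> simp [arrow, h]
  rw [this, perm_lin]
  refine sum_congr rfl fun a _ => congrArg (· * _) ?_
  rw [perm_col, sum_eq_single (swap o a) (fun σ _ hσ => ?_) (by simp)]
  · simp only [swap_apply_left, Pi.single_eq_same, one_mul]
    by_cases h : a = o
    · subst h
      rw [hw]
      exact prod_eq_one fun k hk => by simp [arrow, ne_of_mem_erase hk]
    · rw [← mul_prod_erase _ _ (mem_erase.2 ⟨h, mem_univ a⟩), prod_eq_one, mul_one]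
      · simp [arrow, h]
      · intro k hk
        have h1 := ne_of_mem_erase hk
        have h2 := ne_of_mem_erase (mem_of_mem_erase hk)
        simp [arrow, swap_apply_of_ne_of_ne h2 h1, h2]
  · by_contra h
    have h1 : σ o = a := by
      by_contra h1
      simp [h1] at h
    have h2 : ∀ k, k ≠ o → σ k = o ∨ σ k = k := fun k hk => by
      by_contra h2
      push Not at h2
      exact h (mul_eq_zero_of_right _ (prod_eq_zero (mem_erase.2 ⟨hk, mem_univ k⟩)
        (by simp [arrow, hk, h2.1, h2.2])))
    have h3 : σ a = o := by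
      by_cases ha : a = o
      · rw [ha, h1, ha]
      · exact (h2 a ha).resolve_right fun e => ha (σ.injective (e.trans h1.symm))
    refine hσ (Equiv.ext fun k => ?_)
    rw [swap_apply_def]
    split_ifs with k1 k2
    · rw [k1, h1]
    · rw [k2, h3]
    · exact (h2 k k1).resolve_left fun e => k2 (σ.injective (e.trans h3.symm))

theorem perm_arrow2 (o j : ι) (h : j ≠ o) (u v : ι → R) :
    ((arrow o u 1).updateCol j v).permanent =
      u j * (∑ a, v a - v j) + v j * (∑ a, u a - u j) := by
  have k1 : ∀ u : ι → R, ((arrow o u 1).updateCol j (Pi.single j 1)).permanent =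
      ∑ a, u a - u j := fun u => by
    have : (arrow o u 1).updateCol j (Pi.single j 1) = arrow o u (1 - Pi.single j 1) := by
      ext i k
      by_cases h1 : k = j <;> by_cases h2 : i = o <;> by_cases h3 : k = o <;>
        simp_all [arrow, updateCol_apply, Pi.single_apply, eq_comm]
    rw [this, perm_arrow _ _ _ (by simp [h.symm])]
    simp [sub_mul, sum_sub_distrib, Pi.single_apply]
  have k2 : ∀ u v : ι → R, ((arrow o u 1).updateCol j v).permanent =
      ((arrow o v 1).updateCol j u).permanent := fun u v => by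
    rw [← permanent_permute_rows (swap o j)]
    congr 1
    ext i k
    simp only [submatrix_apply, id, updateCol_apply, arrow, of_apply, swap_apply_def]
    split_ifs <;> simp_all
  have k3 : ∀ a, ((arrow o u 1).updateCol j (Pi.single a 1)).permanent =
      if a = j then ∑ a, u a - u j else u j := fun a => by
    split_ifs with ha
    · rw [ha, k1]
    · rw [k2, perm_lin, sum_eq_single j (fun b _ hb => ?_) (by simp), k1]
      · simp [Ne.symm ha]
      · rw [perm_row_zero _ j fun k => ?_, zero_mul]
        simp only [updateCol_apply, arrow, of_apply, Pi.single_apply]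
        split_ifs <;> simp_all
  have k4 : ∑ a ∈ univ.erase j, ((arrow o u 1).updateCol j (Pi.single a 1)).permanent * v a =
      ∑ a ∈ univ.erase j, u j * v a :=
    sum_congr rfl fun a ha => by rw [k3, if_neg (ne_of_mem_erase ha)]
  rw [perm_lin, ← add_sum_erase _ _ (mem_univ j), k1, k4, ← mul_sum, sum_erase_eq_sub (mem_univ j)]
  ring

end

/-- A symmetric test matrix supported on the first `t` rows and columns. -/
def X0 (K : Type) [Field K] (t i j : ℕ) : K :=
  if i < t ∧ j < t then (if j = 0 then (if i = 0 then 1 - t else 1) else if i = 0 then 1 else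
    if i = j then 1 else 0) else 0

theorem X0_symm (K : Type) [Field K] (t i j : ℕ) : X0 K t i j = X0 K t j i := by
  unfold X0
  split_ifs <;> first | rfl | omega

theorem key {K R : Type} [Field K] [CommRing R] (h2 : (2 : K) ≠ 0) {m n t : ℕ} (ht : 2 ≤ t)
    (hm : t ≤ m) (hn : t < n) (A : Matrix (Fin m) (Fin n) R) (φ : R →+* K)
    (hφ : ∀ i j, φ (A i j) = X0 K t i j) (ψ : R →+* DualNumber K)
    (hψ : ∀ i j, ψ (A i j) = DualNumber.eps) : ¬ (P t A).IsPrime := fun hP => by
  have hin : ∀ c : Fin t → Fin n, Function.Injective c →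
      (A.submatrix (Fin.castLE hm) c).permanent ∈ P t A := fun c hc => by
    refine Ideal.subset_span ⟨Fin.castLE hm, c ∘ Tuple.sort c, Fin.strictMono_castLE hm,
      (Tuple.monotone_sort c).strictMono_of_injective (hc.comp (Tuple.sort c).injective), ?_⟩
    rw [← permanent_permute_rows (Tuple.sort c)]
    rfl
  obtain ⟨o, ho⟩ : ∃ o : Fin t, (o : ℕ) = 0 := ⟨⟨0, by omega⟩, rfl⟩
  set Y := A.submatrix (Fin.castLE hm) (Fin.castLE hn.le)
  set u : Fin t → K := fun i => if i = o then 1 - t else 1
  have hu : ∑ a, u a = 0 := by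
    rw [← add_sum_erase _ _ (mem_univ o), sum_congr rfl (g := fun _ => 1) fun a ha =>
      if_neg (ne_of_mem_erase ha)]
    simp [u, Nat.cast_sub (show 1 ≤ t by omega)]
  have hY : ∀ i j : Fin t, X0 K t i j = arrow o u 1 i j := fun i j => by
    simp [X0, arrow, u, Fin.ext_iff, ho]
  have k1 : P t A ≤ RingHom.ker φ := Ideal.span_le.2 <| by
    rintro _ ⟨r, c, hr, hc, rfl⟩
    rw [SetLike.mem_coe, RingHom.mem_ker, perm_map]
    by_cases h : (∀ i, (r i : ℕ) < t) ∧ ∀ j, (c j : ℕ) < t
    · have e : ∀ f : Fin t → Fin t, StrictMono f → ∀ i, f i = i := fun f hf i =>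
        congrFun (hf.eq_id) i
      have e1 := e (fun i => ⟨r i, h.1 i⟩) fun a b hab => hr hab
      have e2 := e (fun i => ⟨c i, h.2 i⟩) fun a b hab => hc hab
      simp only [Fin.ext_iff] at e1 e2
      have : (A.submatrix r c).map φ = arrow o u 1 := by
        ext i j
        simp [hφ, e1, e2, hY]
      rw [this, perm_arrow o u 1 rfl]
      simpa using hu
    · rw [not_and_or, not_forall, not_forall] at h
      rcases h with ⟨i, hi⟩ | ⟨j, hj⟩
      · exact perm_row_zero _ i fun k => by simp [hφ, X0, hi]
      · rw [← permanent_transpose]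
        exact perm_row_zero _ j fun k => by simp [hφ, X0, hj]
  have k2 : P t A ≤ RingHom.ker ψ := Ideal.span_le.2 <| by
    rintro _ ⟨r, c, -, -, rfl⟩
    rw [SetLike.mem_coe, RingHom.mem_ker, perm_map]
    refine sum_eq_zero fun σ _ => ?_
    obtain ⟨k, rfl⟩ := Nat.exists_eq_add_of_le ht
    simp [hψ, pow_add]
  set M : Matrix (Fin t) (Fin t) R := of fun j i => (Y.updateCol j (Pi.single i 1)).permanent
  have k3 : (M.map (Ideal.Quotient.mk (P t A))).det = 0 := by
    refine exists_mulVec_eq_zero_iff.1 ⟨fun i => Ideal.Quotient.mk _ (A (Fin.castLE hm i) ⟨t, hn⟩),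
      fun h => ?_, funext fun j => ?_⟩
    · have := k2 (Ideal.Quotient.eq_zero_iff_mem.1 (congrFun h o))
      rw [RingHom.mem_ker, hψ] at this
      simpa using congrArg TrivSqZeroExt.snd this
    · simp only [mulVec, dotProduct, map_apply, M, of_apply, ← map_mul, ← map_sum, ← perm_lin,
        Pi.zero_apply, Ideal.Quotient.eq_zero_iff_mem]
      convert hin (Function.update (Fin.castLE hn.le) j ⟨t, hn⟩) ?_ using 2
      · ext i k
        by_cases h : k = j <;> simp [Y, h]
      · intro a b
        simp only [Function.update_apply]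
        split_ifs <;> simp_all [Fin.ext_iff] <;> omega
  rw [← RingHom.mapMatrix_apply, ← RingHom.map_det, Ideal.Quotient.eq_zero_iff_mem] at k3
  have k4 := k1 k3
  rw [RingHom.mem_ker, RingHom.map_det] at k4
  obtain ⟨v, hv, h⟩ := exists_mulVec_eq_zero_iff.2 k4
  have k5 : ∀ j, ((arrow o u 1).updateCol j v).permanent = 0 := fun j => by
    rw [perm_lin]
    refine Eq.trans ?_ (congrFun h j)
    refine sum_congr rfl fun i _ => congrArg (· * _) ?_
    simp only [RingHom.mapMatrix_apply, map_apply, M, of_apply, perm_map]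
    congr 1
    ext a b
    by_cases h : b = j <;> simp [Y, h, hφ, hY, Pi.single_apply, apply_ite φ]
  have k6 : ∑ a, v a = 0 := by
    have := k5 o
    rw [show (arrow o u 1).updateCol o v = arrow o v 1 by
      ext i k
      by_cases h : k = o <;> simp [arrow, h], perm_arrow o v 1 rfl] at this
    simpa using this
  have k7 : ∀ j, j ≠ o → v j = 0 := fun j hj => by
    have := k5 j
    rw [perm_arrow2 _ _ hj, hu, k6, show u j = 1 from if_neg hj] at this
    exact (mul_eq_zero.1 (by linear_combination -this : 2 * v j = 0)).resolve_left h2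
  refine hv (funext fun j => ?_)
  by_cases hj : j = o
  · rwa [sum_eq_single j (fun b _ hb => k7 b (hj ▸ hb)) (by simp)] at k6
  · exact k7 j hj

open MvPolynomial in
theorem result (K : Type) [Field K] (h2 : (2 : K) ≠ 0) (t : ℕ) (ht : 2 ≤ t) :
    (∀ m n, t ≤ m → t ≤ n → ¬ (t = m ∧ t = n) → ¬ (P t (Matrix.of fun (i : Fin m) (j : Fin n) =>
      (X (i, j) : MvPolynomial (Fin m × Fin n) K))).IsPrime) ∧
    ∀ n, t < n → ¬ (P t (Matrix.of fun i j : Fin n =>
      (X s(i, j) : MvPolynomial (Sym2 (Fin n)) K))).IsPrime := by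
  refine ⟨fun m n hm hn h => ?_, fun n hn => key h2 ht hn.le hn _
    (eval (Sym2.lift ⟨fun i j => X0 K t i j, fun i j => X0_symm K t i j⟩)) (by simp)
    (aeval (R := K) fun _ => DualNumber.eps).toRingHom (by simp)⟩
  rcases hn.lt_or_eq with hn | rfl
  · exact key h2 ht hm hn _ (eval fun p => X0 K t p.1 p.2) (by simp)
      (aeval (R := K) fun _ => DualNumber.eps).toRingHom (by simp)
  · have := key h2 ht hn (show t < m by omega) (Matrix.of fun (i : Fin m) (j : Fin t) =>
      (X (i, j) : MvPolynomial (Fin m × Fin t) K))ᵀ (eval fun p => X0 K t p.2 p.1) (by simp)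
      (aeval (R := K) fun _ => DualNumber.eps).toRingHom (by simp)
    convert this using 2
    unfold P
    congr 1
    ext x
    constructor <;> rintro ⟨r, c, hr, hc, rfl⟩ <;>
      exact ⟨c, r, hc, hr, (permanent_transpose _).symm⟩

end Pool.Agent.Results.MP_9bc296_ag.NotPrime
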